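import Pool.Agent.Run7.h598.HM.Cnt
import Pool.Agent.Y736.RN.L

set_option autoImplicit false

/-! # The dimension of the parameters with fast decay of the level sets -/

namespace Pool.Agent.Run7.h598.HM

open Complex Metric Set Filter Topology MeasureTheory Pool.Agent.H712R2 Pool.Agent.H713R2
open N62a1eb23
open Pool.Agent.H713R2.AR

variable {d : ℕ} {ψ : ℂ → ℂ}

/-- Green's function of the Multibrot set is large near each point. -/
theorem green_big (hψ : IsExteriorMap (multibrotSet d) ψ) {a b : ℕ} (hab : a + b + 2 = d)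
    {c : ℂ} (hc : c ∈ multibrotSet d) {s r : ℝ} (hs0 : 0 < s)
    (hr : Pool.Agent.Run7.h598.PP.BB d c s a b < r) (hr9 : r ≤ 9) :
    ∃ w : ℂ, 1 < ‖w‖ ∧ ‖ψ w - c‖ ≤ r ∧ s ≤ Real.log ‖w‖ := by
  have hd : 2 ≤ d := by omega
  have hd0 : (2:ℝ) ≤ d := by exact_mod_cast hd
  have h1 : Tendsto (fun J : ℕ => (d:ℝ) ^ (J + 1)) atTop atTop :=
    (tendsto_pow_atTop_atTop_of_one_lt (by linarith)).comp (tendsto_add_atTop_nat 1)
  obtain ⟨J, hJ⟩ := (h1.eventually_ge_atTop (6 / s)).exists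
  have hJ6 : 6 ≤ s * (d:ℝ) ^ (J + 1) := by
    rw [div_le_iff₀ hs0] at hJ
    linarith
  obtain ⟨p, hp1, hp2, hp3⟩ := big_value hab hc hr hr9 hJ6
  have h8 : Real.log 8 = 3 * Real.log 2 := by
    rw [show (8:ℝ) = 2 ^ 3 by norm_num, Real.log_pow]
    norm_num
  have hl2 := Real.log_two_lt_d9
  have hl20 : 0 < Real.log 2 := Real.log_pos (by norm_num)
  have hpM : p ∉ multibrotSet d := by
    intro h
    have h2 := (mem_multibrot_iff hd p).1 h (J + 1)
    have h3 := Real.log_le_log (norm_pos_iff.2 hp3) h2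
    rw [h8] at hp2
    linarith
  have h4 : p ∈ (multibrotSet d)ᶜ := hpM
  rw [← hψ.image] at h4
  obtain ⟨w, hw, rfl⟩ := h4
  have hw' : 1 < ‖w‖ := hw
  refine ⟨w, hw', hp1, ?_⟩
  have h5 := Pool.Agent.W677.MC.P_le_two hd hψ hw' J
  have h6 := Real.log_le_log (norm_pos_iff.2 hp3) h5
  have hD : (0:ℝ) < (d:ℝ) ^ J := by positivity
  rw [Real.log_mul (by norm_num) (by positivity), Real.log_pow] at h6
  push_cast at h6
  rw [h8] at hp2
  have h7 : (d:ℝ) ^ J * s ≤ (d:ℝ) ^ J * Real.log ‖w‖ := by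
    have h9 : s * (d:ℝ) ^ (J + 1) = (d:ℝ) ^ J * s * d := by ring
    have h10 : (d:ℝ) ^ J * s * 2 ≤ (d:ℝ) ^ J * s * d := by
      apply mul_le_mul_of_nonneg_left hd0
      positivity
    linarith
  exact le_of_mul_le_mul_left h7 hD

/-- Fast decay of the level sets on infinitely many scales. -/
theorem big_of_moment (hψ : IsExteriorMap (multibrotSet d) ψ) {a b : ℕ} (hab : a + b + 2 = d)
    {c : ℂ} (hc : c ∈ multibrotSet d) {α C : ℝ} (hα : 0 < α) (hC : 0 ≤ C)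
    (h : ∃ᶠ s : ℝ in 𝓝[>] 0, Pool.Agent.Run7.h598.PP.BB d c s a b ≤ C * s ^ α) :
    Pool.Agent.Y736.RN.Big ψ (1 / α) c := by
  have hC1 : 0 < C + 1 := by linarith
  have hlim : Tendsto (fun s : ℝ => (C + 1) * s ^ α) (𝓝[>] 0) (𝓝[>] 0) := by
    rw [tendsto_nhdsWithin_iff]
    refine ⟨?_, ?_⟩
    · have h1 : ContinuousAt (fun s : ℝ => (C + 1) * s ^ α) 0 :=
        (Real.continuousAt_rpow_const 0 α (Or.inr hα.le)).const_mul (C + 1)
      have h2 := h1.tendsto
      rw [Real.zero_rpow hα.ne', mul_zero] at h2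
      exact h2.mono_left nhdsWithin_le_nhds
    · filter_upwards [self_mem_nhdsWithin] with s hs
      have hs' : 0 < s := hs
      have : 0 < s ^ α := Real.rpow_pos_of_pos hs' _
      show 0 < (C + 1) * s ^ α
      positivity
  refine ⟨((C + 1) ^ (1 / α))⁻¹, by positivity, ?_⟩
  apply hlim.frequently
  have h9 : ∀ᶠ s : ℝ in 𝓝[>] 0, (C + 1) * s ^ α ≤ 9 := by
    have h1 := hlim.mono_right nhdsWithin_le_nhds
    exact (h1.eventually (gt_mem_nhds (by norm_num : (0:ℝ) < 9))).mono fun _ h => le_of_lt h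
  refine (h.and_eventually (h9.and self_mem_nhdsWithin)).mono ?_
  rintro s ⟨h1, h2, hs⟩
  have hs' : 0 < s := hs
  have hsα : 0 < s ^ α := Real.rpow_pos_of_pos hs' _
  obtain ⟨w, hw1, hw2, hw3⟩ := green_big hψ hab hc hs' (lt_of_le_of_lt h1 (by nlinarith)) h2
  refine ⟨w, hw1, hw2, le_trans (le_of_eq ?_) hw3⟩
  rw [Real.mul_rpow hC1.le hsα.le, ← Real.rpow_mul hs'.le, mul_one_div_cancel hα.ne',
    Real.rpow_one]
  have : (C + 1) ^ (1 / α) ≠ 0 := (Real.rpow_pos_of_pos hC1 _).ne'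
  field_simp

/-- The moments and the area for degree two. -/
theorem BB_two (c : ℂ) (s : ℝ) :
    Pool.Agent.Run7.h598.PP.BB 2 c s 0 0 = 2 / Real.pi * (volume (GLev 2 c s)).toReal := by
  unfold Pool.Agent.Run7.h598.PP.BB
  have h1 : ∫ z in GLev 2 c s, ‖z‖ ^ (2 * 0) = (volume (GLev 2 c s)).toReal := by
    simp [Measure.real]
  rw [h1, Real.sqrt_mul_self ENNReal.toReal_nonneg]
  norm_num

theorem big_of_area (hψ : IsExteriorMap (multibrotSet 2) ψ)
    {c : ℂ} (hc : c ∈ multibrotSet 2) {α : ℝ} (hα : 0 < α)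
    (h : ∃ᶠ s : ℝ in 𝓝[>] 0, volume {z : ℂ | green 2 c z ≤ s} ≤ ENNReal.ofReal (s ^ α)) :
    Pool.Agent.Y736.RN.Big ψ (1 / α) c := by
  have hpi := Real.pi_gt_three
  apply big_of_moment hψ (a := 0) (b := 0) rfl hc hα (C := 1) zero_le_one
  refine (h.and_eventually self_mem_nhdsWithin).mono ?_
  rintro s ⟨h1, hs⟩
  have hs' : 0 < s := hs
  have hsα : 0 < s ^ α := Real.rpow_pos_of_pos hs' _
  rw [BB_two]
  have h2 : (volume (GLev 2 c s)).toReal ≤ s ^ α := by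
    have h3 := ENNReal.toReal_mono ENNReal.ofReal_ne_top h1
    rwa [ENNReal.toReal_ofReal hsα.le] at h3
  have h4 : 2 / Real.pi ≤ 1 := by
    rw [div_le_one (by positivity)]
    linarith
  have h5 : 0 ≤ (volume (GLev 2 c s)).toReal := ENNReal.toReal_nonneg
  nlinarith

end Pool.Agent.Run7.h598.HM
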