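import Pool.Agent.Run7.h598.HM.Cnt

set_option autoImplicit false

/-! # Lower bounds of the number of centres of exact period -/

namespace Pool.Agent.Run7.h598.HM

open Complex Metric Set Filter Topology MeasureTheory Pool.Agent.H712R2 Pool.Agent.H713R2
open N62a1eb23
open Pool.Agent.H713R2.AR
open Pool.Agent.Y736.HD Pool.Agent.Y736.HG
open Pool.Agent.R240.LL (ZZ mem_ZZ card_ZZ nz nz_mono law KL KL_pos)

variable {d : ℕ}

/-- the number of centres -/
theorem count_all {a b : ℕ} (hab : a + b + 2 = d)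
    {c : ℂ} (hc : c ∈ multibrotSet d) {s r : ℝ} (hs0 : 0 < s) (hs1 : s ≤ 1)
    (hr : Pool.Agent.Run7.h598.PP.BB d c s a b < r) (N : ℕ)
    (hN : 160 * d * KL * Real.log d * (N + 1 : ℕ) ≤ s * (d:ℝ) ^ (N + 1)) :
    s * (d:ℝ) ^ (N + 1) / (160 * d) ≤ nz d N c (20 * r) := by
  have hd : 2 ≤ d := by omega
  have hd0 : (2:ℝ) ≤ d := by exact_mod_cast hd
  obtain ⟨β, hβ⟩ := exists_beta (d := d) hd
  have hψ := exteriorMap_of_beta hβ
  have hBB0 : 0 ≤ Pool.Agent.Run7.h598.PP.BB d c s a b := by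
    unfold Pool.Agent.Run7.h598.PP.BB
    have := Real.pi_pos
    positivity
  have hr0 : 0 < r := by linarith
  have h1 := harm_lower hψ hab hc hs0 hs1 hr
  have h2 := (law hd hψ hc N (by positivity : 0 < 10 * r) one_pos le_rfl).2
  rw [show (1 + 1) * (10 * r) = 20 * r by ring, div_one] at h2
  have hD : (0:ℝ) < (d:ℝ) ^ N := by positivity
  have h3 := mul_le_mul_of_nonneg_left h1 hD.le
  have h4 : KL * (N + 1 : ℕ) * Real.log d ≤ s * (d:ℝ) ^ (N + 1) / (160 * d) := by
    rw [le_div_iff₀ (by positivity)]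
    calc KL * (N + 1 : ℕ) * Real.log d * (160 * d) = 160 * d * KL * Real.log d * (N + 1 : ℕ) := by ring
      _ ≤ _ := hN
  have h5 : (d:ℝ) ^ N * (s / 80) = s * (d:ℝ) ^ (N + 1) / (160 * d) + s * (d:ℝ) ^ (N + 1) / (160 * d) := by
    field_simp
    ring
  linarith

theorem sum_card (hd : 2 ≤ d) (M : ℕ) : ((Finset.range M).biUnion fun k => ZZ d k).card ≤ d ^ M := by
  refine Finset.card_biUnion_le.trans ?_
  refine (Finset.sum_le_sum fun k _ => card_ZZ hd k).trans ?_
  exact (Nat.geomSum_lt hd (fun k hk => Finset.mem_range.1 hk)).le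

theorem sqrt_pow (hd : 2 ≤ d) (m : ℕ) : (d:ℝ) ^ (m / 2) ≤ √d ^ m := by
  have hd0 : (2:ℝ) ≤ d := by exact_mod_cast hd
  have h1 : (1:ℝ) ≤ √d := by
    rw [Real.one_le_sqrt]
    linarith
  have h2 : (d:ℝ) ^ (m / 2) = √d ^ (2 * (m / 2)) := by
    rw [pow_mul, Real.sq_sqrt (by linarith)]
  rw [h2]
  exact pow_le_pow_right₀ h1 (by omega)

theorem sqrt_mul_self_pow (hd : 2 ≤ d) (m : ℕ) : √(d:ℝ) ^ m * √d ^ m = (d:ℝ) ^ m := by
  rw [← mul_pow, Real.mul_self_sqrt (by positivity)]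

theorem le_sqrt_pow (hd : 2 ≤ d) (m : ℕ) : (m:ℝ) ≤ 4 * √d ^ m := by
  have hd0 : (2:ℝ) ≤ d := by exact_mod_cast hd
  have h1 : m ^ 2 ≤ 16 * 2 ^ m := by
    rcases le_or_gt m 4 with h | h
    · interval_cases m <;> norm_num
    · have h2 : m ^ 2 ≤ 2 ^ m := by
        induction m, (show 4 ≤ m by omega) using Nat.le_induction with
        | base => norm_num
        | succ k hk ih =>
          rcases eq_or_lt_of_le hk with h5 | h5
          · rw [← h5]; norm_num
          · have h6 := ih (by omega)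
            have h7 : 2 ^ (k + 1) = 2 * 2 ^ k := by ring
            rw [h7]
            nlinarith
      omega
  have h2 : ((m:ℝ)) ^ 2 ≤ 16 * 2 ^ m := by exact_mod_cast h1
  have h3 : (2:ℝ) ^ m ≤ (d:ℝ) ^ m := pow_le_pow_left₀ (by norm_num) hd0 m
  have h4 := sqrt_mul_self_pow hd m
  have h5 : (0:ℝ) ≤ √d ^ m := by positivity
  apply le_of_sq_le_sq _ (by positivity)
  nlinarith

/-- the set of parameters with exact period -/
def Ex (d m : ℕ) (c : ℂ) (r : ℝ) : Set ℂ :=
  {a | ‖a - c‖ < r ∧ Function.minimalPeriod (fun z => z ^ d + a) 0 = m}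

theorem P_iter (m : ℕ) (a : ℂ) : P d m a = (fun z => z ^ d + a)^[m] 0 := by
  induction m with
  | zero => exact P_zero d a
  | succ n ih => rw [P_succ, ih, Function.iterate_succ_apply']

theorem nz_eq (hd : 2 ≤ d) (N : ℕ) (c : ℂ) (r : ℝ) :
    {a : ℂ | ‖a - c‖ < r ∧ (fun z => z ^ d + a)^[N + 1] 0 = 0}.ncard = nz d N c r := by
  have h1 : {a : ℂ | ‖a - c‖ < r ∧ (fun z => z ^ d + a)^[N + 1] 0 = 0} =
      (((ZZ d N).filter (fun a => ‖a - c‖ < r) : Finset ℂ) : Set ℂ) := by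
    ext a
    rw [Finset.mem_coe, Finset.mem_filter, mem_ZZ hd, P_iter, mem_setOf_eq, and_comm]
  rw [h1, Set.ncard_coe_finset]
  rfl

theorem Ex_fin (hd : 2 ≤ d) (N : ℕ) (c : ℂ) (r : ℝ) : (Ex d (N + 1) c r).Finite := by
  apply (Finset.finite_toSet (ZZ d N)).subset
  rintro a ⟨-, ha⟩
  rw [Finset.mem_coe, mem_ZZ hd, P_iter]
  have h1 : Function.IsPeriodicPt (fun z : ℂ => z ^ d + a) (N + 1) 0 := by
    rw [← ha]
    exact Function.isPeriodicPt_minimalPeriod _ _
  exact h1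

/-- the number of centres of exact period -/
theorem nz_le_Ex (hd : 2 ≤ d) (N : ℕ) (c : ℂ) (r : ℝ) :
    nz d N c r ≤ (Ex d (N + 1) c r).ncard + d ^ ((N + 1) / 2) := by
  classical
  have h1 : ((ZZ d N).filter (fun a => ‖a - c‖ < r)) ⊆ (Ex_fin hd N c r).toFinset ∪
      ((Finset.range ((N + 1) / 2)).biUnion fun k => ZZ d k) := by
    intro a ha
    rw [Finset.mem_filter, mem_ZZ hd] at ha
    obtain ⟨ha, har⟩ := ha
    rw [Finset.mem_union, Set.Finite.mem_toFinset]
    obtain ⟨p, hp⟩ : ∃ p, p = Function.minimalPeriod (fun z => z ^ d + a) 0 := ⟨_, rfl⟩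
    have h2 : Function.IsPeriodicPt (fun z : ℂ => z ^ d + a) (N + 1) 0 := by
      have h3 := ha
      rw [P_iter] at h3
      exact h3
    have hdvd : p ∣ N + 1 := by rw [hp]; exact h2.minimalPeriod_dvd
    have hp0 : 0 < p := by rw [hp]; exact h2.minimalPeriod_pos (by omega)
    by_cases hpN : p = N + 1
    · left
      exact ⟨har, by rw [← hp, hpN]⟩
    · right
      rw [Finset.mem_biUnion]
      obtain ⟨q, hq⟩ := hdvd
      have hq2 : 2 ≤ q := by
        by_contra hcon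
        have : q = 0 ∨ q = 1 := by omega
        rcases this with h | h
        · rw [h, mul_zero] at hq
          omega
        · rw [h, mul_one] at hq
          exact hpN hq.symm
      have hple : p ≤ (N + 1) / 2 := by
        rw [Nat.le_div_iff_mul_le (by norm_num)]
        rw [hq]
        exact Nat.mul_le_mul_left p hq2
      refine ⟨p - 1, Finset.mem_range.2 (by omega), ?_⟩
      rw [mem_ZZ hd, show p - 1 + 1 = p by omega, P_iter]
      have h4 : Function.IsPeriodicPt (fun z : ℂ => z ^ d + a) p 0 := by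
        rw [hp]
        exact Function.isPeriodicPt_minimalPeriod _ _
      exact h4
  unfold nz
  refine (Finset.card_le_card h1).trans ((Finset.card_union_le _ _).trans ?_)
  rw [Set.ncard_eq_toFinset_card _ (Ex_fin hd N c r)]
  exact Nat.add_le_add_left (sum_card hd _) _

/-- the constant for all centres -/
noncomputable def KF (d : ℕ) : ℝ := 160 * d * KL * Real.log d + 1

theorem KF_pos (hd : 2 ≤ d) : 0 < KF d := by
  have hd0 : (2:ℝ) ≤ d := by exact_mod_cast hd
  have h1 : 0 ≤ Real.log d := Real.log_nonneg (by linarith)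
  have := KL_pos
  unfold KF
  positivity

/-- the number of parameters at which the critical point returns to itself -/
theorem count_ret {a b : ℕ} (hab : a + b + 2 = d)
    {c : ℂ} (hc : c ∈ multibrotSet d) {s r : ℝ} (hs0 : 0 < s) (hs1 : s ≤ 1)
    (hr : Pool.Agent.Run7.h598.PP.BB d c s a b < r) (N : ℕ)
    (hN : KF d * (N + 1 : ℕ) ≤ s * (d:ℝ) ^ (N + 1)) :
    s * (d:ℝ) ^ (N + 1) / (160 * d) ≤
      {a : ℂ | ‖a - c‖ < 20 * r ∧ (fun z => z ^ d + a)^[N + 1] 0 = 0}.ncard := by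
  have hd : 2 ≤ d := by omega
  rw [nz_eq hd]
  apply count_all hab hc hs0 hs1 hr
  refine le_trans ?_ hN
  unfold KF
  have : (0:ℝ) ≤ (N + 1 : ℕ) := by positivity
  nlinarith

/-- the constant -/
noncomputable def KE (d : ℕ) : ℝ := 640 * d * KL * Real.log d + 320 * d

theorem KE_pos (hd : 2 ≤ d) : 0 < KE d := by
  have hd0 : (2:ℝ) ≤ d := by exact_mod_cast hd
  have h1 : 0 ≤ Real.log d := Real.log_nonneg (by linarith)
  have := KL_pos
  unfold KE
  positivity

/-- **The number of centres of exact period.** -/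
theorem count_exact {a b : ℕ} (hab : a + b + 2 = d)
    {c : ℂ} (hc : c ∈ multibrotSet d) {s r : ℝ} (hs0 : 0 < s) (hs1 : s ≤ 1)
    (hr : Pool.Agent.Run7.h598.PP.BB d c s a b < r) (N : ℕ)
    (hN : KE d ≤ s * √d ^ (N + 1)) :
    s * (d:ℝ) ^ (N + 1) / (320 * d) ≤ (Ex d (N + 1) c (20 * r)).ncard := by
  have hd : 2 ≤ d := by omega
  have hd0 : (2:ℝ) ≤ d := by exact_mod_cast hd
  have hlog : 0 ≤ Real.log d := Real.log_nonneg (by linarith)
  have hKL := KL_pos
  obtain ⟨q, hq⟩ : ∃ q : ℝ, q = √d ^ (N + 1) := ⟨_, rfl⟩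
  have hq0 : 0 < q := by rw [hq]; positivity
  have hqq : q * q = (d:ℝ) ^ (N + 1) := by rw [hq]; exact sqrt_mul_self_pow hd _
  have hm : ((N + 1 : ℕ) : ℝ) ≤ 4 * q := by rw [hq]; exact le_sqrt_pow hd _
  rw [← hq] at hN
  have hE1 : 0 ≤ 640 * d * KL * Real.log d := by positivity
  unfold KE at hN
  have h1 : 160 * d * KL * Real.log d * (N + 1 : ℕ) ≤ s * (d:ℝ) ^ (N + 1) := by
    calc 160 * d * KL * Real.log d * (N + 1 : ℕ) ≤ 160 * d * KL * Real.log d * (4 * q) := by gcongr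
      _ = 640 * d * KL * Real.log d * q := by ring
      _ ≤ (s * q) * q := by
          apply mul_le_mul_of_nonneg_right _ hq0.le
          have : (0:ℝ) ≤ 320 * d := by positivity
          linarith
      _ = s * (d:ℝ) ^ (N + 1) := by rw [← hqq]; ring
  have h2 := count_all hab hc hs0 hs1 hr N h1
  have h3 : (nz d N c (20 * r) : ℝ) ≤ (Ex d (N + 1) c (20 * r)).ncard + (d:ℝ) ^ ((N + 1) / 2) := by
    exact_mod_cast nz_le_Ex hd N c (20 * r)
  have h4 := sqrt_pow hd (N + 1)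
  rw [← hq] at h4
  have h5 : q ≤ s * (d:ℝ) ^ (N + 1) / (320 * d) := by
    rw [le_div_iff₀ (by positivity), ← hqq]
    calc q * (320 * d) = (320 * d) * q := by ring
      _ ≤ (s * q) * q := by
          apply mul_le_mul_of_nonneg_right _ hq0.le
          linarith
      _ = _ := by ring
  have h6 : s * (d:ℝ) ^ (N + 1) / (160 * d) = s * (d:ℝ) ^ (N + 1) / (320 * d) +
      s * (d:ℝ) ^ (N + 1) / (320 * d) := by
    field_simp
    ring
  linarith

end Pool.Agent.Run7.h598.HM
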