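import Pool.Agent.Run7.h598.HM.Main

set_option autoImplicit false

/-! # Lower bounds of the number of centres -/

namespace Pool.Agent.Run7.h598.HM

open Complex Metric Set Filter Topology MeasureTheory Pool.Agent.H712R2 Pool.Agent.H713R2
open N62a1eb23
open Pool.Agent.H713R2.AR
open Pool.Agent.Y736.HD Pool.Agent.Y736.HG
open Pool.Agent.R240.LL (ZZ mem_ZZ card_ZZ nz nz_mono law KL KL_pos)
open Pool.Agent.Run7.h598.PP (KG disc_ineqG grow)

variable {d : ℕ} {ψ : ℂ → ℂ}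

/-- a centre of period two -/
theorem exists_two (hd : 2 ≤ d) : ∃ c ∈ multibrotSet d, ‖c‖ = 1 := by
  obtain ⟨c, hc0, hc, -⟩ := Pool.Agent.Run7.h598.PP.exists_nonzero hd 0
  refine ⟨c, Pool.Agent.R240.Trans.centre_mem hd (by omega) hc, ?_⟩
  have h1 : c ^ d + c = 0 := by
    have h2 : P d (0 + 2) c = (P d 1 c) ^ d + c := P_succ d 1 c
    rw [h2, P_one hd] at hc
    exact hc
  obtain ⟨e, rfl⟩ : ∃ e, d = e + 2 := ⟨d - 2, by omega⟩
  have h2 : c * (c ^ (e + 1) + 1) = 0 := by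
    rw [← h1]
    ring
  have h3 : c ^ (e + 1) + 1 = 0 := (mul_eq_zero.1 h2).resolve_left hc0
  have h4 : c ^ (e + 1) = -1 := by linear_combination h3
  have h5 : ‖c‖ ^ (e + 1) = 1 := by rw [← norm_pow, h4, norm_neg, norm_one]
  exact (pow_eq_one_iff_of_nonneg (norm_nonneg _) (by omega)).1 h5

/-- the Multibrot set meets all small circles about its points -/
theorem circ (hd : 2 ≤ d) {c : ℂ} (hc : c ∈ multibrotSet d) {s : ℝ} (hs0 : 0 ≤ s) (hs : s ≤ 1 / 2) :
    ∃ y ∈ multibrotSet d, ‖y - c‖ = s := by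
  obtain ⟨c₁, hc₁, hn⟩ := exists_two hd
  have h0 : (0 : ℂ) ∈ multibrotSet d :=
    Pool.Agent.R240.Trans.centre_mem hd (n := 1) le_rfl (P_one hd 0)
  have h1 : ∃ q ∈ multibrotSet d, 1 / 2 ≤ ‖q - c‖ := by
    rcases le_or_gt (1 / 2) ‖c‖ with h | h
    · exact ⟨0, h0, by rw [zero_sub, norm_neg]; exact h⟩
    · refine ⟨c₁, hc₁, ?_⟩
      have := norm_sub_norm_le c₁ c
      rw [hn] at this
      linarith
  obtain ⟨q, hq, hqn⟩ := h1
  have hpre : IsPreconnected ((fun z => ‖z - c‖) '' multibrotSet d) :=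
    (isConnected_multibrot hd).isPreconnected.image _ (by fun_prop)
  have h2 : Icc (‖c - c‖) (‖q - c‖) ⊆ (fun z => ‖z - c‖) '' multibrotSet d :=
    hpre.Icc_subset ⟨c, hc, rfl⟩ ⟨q, hq, rfl⟩
  have h3 : s ∈ Icc (‖c - c‖) (‖q - c‖) := by
    rw [sub_self, norm_zero]
    exact ⟨hs0, by linarith⟩
  obtain ⟨y, hy, hys⟩ := h2 h3
  exact ⟨y, hy, hys⟩

/-- a large value near a point of the Multibrot set -/
theorem big_value {a b : ℕ} (hab : a + b + 2 = d) {c : ℂ} (hc : c ∈ multibrotSet d) {s r : ℝ}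
    (hr : Pool.Agent.Run7.h598.PP.BB d c s a b < r) (hr9 : r ≤ 9) {J : ℕ}
    (hJ : 6 ≤ s * (d : ℝ) ^ (J + 1)) :
    ∃ p : ℂ, ‖p - c‖ ≤ r ∧ s * (d : ℝ) ^ (J + 1) - Real.log 8 ≤ Real.log ‖P d (J + 1) p‖ ∧
      P d (J + 1) p ≠ 0 := by
  have hd : 2 ≤ d := by omega
  have hd0 : (2:ℝ) ≤ d := by exact_mod_cast hd
  have hBB0 : 0 ≤ Pool.Agent.Run7.h598.PP.BB d c s a b := by
    unfold Pool.Agent.Run7.h598.PP.BB
    have := Real.pi_pos
    positivity
  have hr0 : 0 < r := by linarith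
  obtain ⟨X, hX⟩ : ∃ X : ℝ, X = Real.exp (s * (d : ℝ) ^ (J + 1)) := ⟨_, rfl⟩
  have hX1 : 128 ≤ X := by
    rw [hX]
    have h1 : Real.exp 6 ≤ Real.exp (s * (d : ℝ) ^ (J + 1)) := Real.exp_le_exp.2 hJ
    have h2 : (2.7 : ℝ) < Real.exp 1 := by linarith [Real.exp_one_gt_d9]
    have h3 : Real.exp 6 = Real.exp 1 ^ 6 := by rw [← Real.exp_nat_mul]; norm_num
    have h4 : (2.7 : ℝ) ^ 6 ≤ Real.exp 1 ^ 6 := pow_le_pow_left₀ (by norm_num) h2.le 6
    have h5 : (128 : ℝ) ≤ 2.7 ^ 6 := by norm_num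
    linarith
  obtain ⟨M, hM⟩ : ∃ M : ℝ, M = X / 4 - 3 := ⟨_, rfl⟩
  have hM3 : 11 ≤ M := by rw [hM]; linarith
  have hKG : KG d M / (d : ℝ) ^ (J + 2) = s := by
    unfold KG
    have h1 : Real.log (M + 3) + Real.log 4 = s * (d : ℝ) ^ (J + 1) := by
      rw [← Real.log_mul (by linarith) (by norm_num), hM,
        show (X / 4 - 3 + 3) * 4 = X by ring, hX, Real.log_exp]
    rw [h1, pow_succ (d : ℝ) (J + 1)]
    have : (d:ℝ) ≠ 0 := by positivity
    field_simp
  obtain ⟨γ, hγ⟩ : ∃ γ : ℂ → ℂ, γ = fun t => c + ((2 * r : ℝ) : ℂ) * t := ⟨_, rfl⟩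
  have hγd : Differentiable ℂ γ := by
    rw [hγ]
    fun_prop
  have hγ0 : γ 0 = c := by rw [hγ]; simp
  have hγ' : deriv γ 0 = ((2 * r : ℝ) : ℂ) := by
    rw [hγ]
    simp
  have hnot : ¬ ∀ t : ℂ, ‖t‖ ≤ 1 / 2 → BdJ d M (J + 1) (γ t) := by
    intro hbd
    have h1 := disc_ineqG hab hγd.differentiableOn (by rw [hγ0]; exact hc) (by linarith : 1 ≤ M)
      (by norm_num : (0:ℝ) ≤ 1 / 2) (by norm_num) hbd
    rw [hγ', hγ0, hKG, Complex.norm_real, Real.norm_of_nonneg (by positivity)] at h1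
    unfold Pool.Agent.Run7.h598.PP.BB at hr
    linarith
  push Not at hnot
  obtain ⟨t, ht, hbd⟩ := hnot
  unfold BdJ at hbd
  push Not at hbd
  obtain ⟨i, hi1, hi2, hi⟩ := hbd
  have hpn : ‖γ t - c‖ ≤ r := by
    rw [hγ]
    show ‖c + ((2 * r : ℝ) : ℂ) * t - c‖ ≤ r
    rw [add_sub_cancel_left, norm_mul, Complex.norm_real, Real.norm_of_nonneg (by positivity)]
    nlinarith
  have hc2 : ‖c‖ ≤ 2 := by
    have := (mem_multibrot_iff hd c).1 hc 1
    rwa [P_one hd] at this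
  have hpM : ‖γ t‖ ≤ M := by
    have h1 := norm_add_le (γ t - c) c
    rw [sub_add_cancel] at h1
    linarith
  obtain ⟨j, hj⟩ : ∃ j, J + 1 = i + j := ⟨J + 1 - i, by omega⟩
  have h2 := grow hd (by linarith : 3 ≤ M) hpM hi j
  rw [← hj] at h2
  have h3 : M < ‖P d (J + 1) (γ t)‖ := lt_of_lt_of_le hi h2
  refine ⟨γ t, hpn, ?_, ?_⟩
  · have h4 : X / 8 ≤ ‖P d (J + 1) (γ t)‖ := by
      rw [hM] at h3
      linarith
    have h5 := Real.log_le_log (by linarith : 0 < X / 8) h4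
    rw [Real.log_div (by linarith) (by norm_num), hX, Real.log_exp] at h5
    exact h5
  · intro h
    rw [h, norm_zero] at h3
    linarith

/-- **Lower bound of the harmonic measure.** -/
theorem harm_lower (hψ : IsExteriorMap (multibrotSet d) ψ) {a b : ℕ} (hab : a + b + 2 = d)
    {c : ℂ} (hc : c ∈ multibrotSet d) {s r : ℝ} (hs0 : 0 < s) (hs1 : s ≤ 1)
    (hr : Pool.Agent.Run7.h598.PP.BB d c s a b < r) :
    s / 80 ≤ (volume (Ang ψ c (10 * r))).toReal / (2 * Real.pi) := by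
  have hd : 2 ≤ d := by omega
  have hd0 : (2:ℝ) ≤ d := by exact_mod_cast hd
  have hpi := Real.pi_pos
  have hBB0 : 0 ≤ Pool.Agent.Run7.h598.PP.BB d c s a b := by
    unfold Pool.Agent.Run7.h598.PP.BB
    positivity
  have hr0 : 0 < r := by linarith
  rcases le_or_gt (1 / 2) r with hr2 | hr2
  · have h1 : volume (Ang ψ c (10 * r)) = ENNReal.ofReal (2 * Real.pi) := by
      rw [← sub_zero (2 * Real.pi), ← Real.volume_Ioc]
      apply measure_congr
      filter_upwards [ae_land hd hψ] with θ hθ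
      obtain ⟨ζ, hζ⟩ := hθ
      apply propext
      constructor
      · exact fun h => h.1
      · intro h
        refine ⟨h, ζ, ?_, hζ⟩
        have hζM := Pool.Agent.R240.land_mem hd hψ hζ
        have h2 := (mem_multibrot_iff hd ζ).1 hζM 1
        have h3 := (mem_multibrot_iff hd c).1 hc 1
        rw [P_one hd] at h2 h3
        rw [mem_ball, dist_eq_norm]
        have := norm_sub_le ζ c
        linarith
    rw [h1, ENNReal.toReal_ofReal (by positivity), div_self (by positivity)]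
    linarith
  · have hkey : ∀ᶠ J : ℕ in atTop, s * d / 4 - (Real.log 8 / 4 + Real.log 2) / (d:ℝ) ^ J ≤
        20 * ((volume (Ang ψ c (6 * r))).toReal / (2 * Real.pi)) := by
      have h1 : Tendsto (fun J : ℕ => (d:ℝ) ^ (J + 1)) atTop atTop :=
        (tendsto_pow_atTop_atTop_of_one_lt (by linarith)).comp (tendsto_add_atTop_nat 1)
      filter_upwards [h1.eventually_ge_atTop (6 / s)] with J hJ
      have hJ6 : 6 ≤ s * (d:ℝ) ^ (J + 1) := by
        rw [div_le_iff₀ hs0] at hJ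
        linarith
      obtain ⟨p, hp1, hp2, hp3⟩ := big_value hab hc hr (by linarith) hJ6
      have h2 := mass_Ang hd hψ hr0 (fun s' hs' => circ hd hc hs'.1.le (by linarith [hs'.2])) hp1 J hp3
      refine le_trans ?_ h2
      have hD : (0:ℝ) < (d:ℝ) ^ J := by positivity
      rw [le_div_iff₀ hD, sub_mul, div_mul_cancel₀ _ hD.ne']
      have h3 : s * d / 4 * (d:ℝ) ^ J = s * (d:ℝ) ^ (J + 1) / 4 := by ring
      rw [h3]
      linarith
    have hlim : Tendsto (fun J : ℕ => s * d / 4 - (Real.log 8 / 4 + Real.log 2) / (d:ℝ) ^ J) atTop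
        (𝓝 (s * d / 4 - 0)) := by
      apply Tendsto.const_sub
      exact tendsto_const_nhds.div_atTop (tendsto_pow_atTop_atTop_of_one_lt (by linarith))
    have h2 := le_of_tendsto hlim hkey
    have h3 : (volume (Ang ψ c (6 * r))).toReal ≤ (volume (Ang ψ c (10 * r))).toReal := by
      apply ENNReal.toReal_mono (vol_Ang_ne ψ c _)
      apply measure_mono
      rintro θ ⟨h1, ζ, h2, h3⟩
      exact ⟨h1, ζ, ball_subset_ball (by linarith) h2, h3⟩
    have h4 : (volume (Ang ψ c (6 * r))).toReal / (2 * Real.pi) ≤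
        (volume (Ang ψ c (10 * r))).toReal / (2 * Real.pi) := by gcongr
    nlinarith

end Pool.Agent.Run7.h598.HM
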