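import Mathlib
import Pool.Agent.R240.Polar

set_option autoImplicit false

/-! # Two averaging lemmas: area means and radial means -/

namespace Pool.Agent.Run7.h598.HM

open Complex Metric Set Filter Topology MeasureTheory
open Real (posLog circleAverage)
open scoped ENNReal

/-- the integral over a circle as a circle average -/
theorem lint_circle {F : ℂ → ℝ} (hF : Continuous F) (hF0 : ∀ z, 0 ≤ F z) (c : ℂ) (r : ℝ) :
    ∫⁻ θ in Ioc (-Real.pi) Real.pi, ENNReal.ofReal (F (c + r * exp (θ * I))) =
      ENNReal.ofReal (2 * Real.pi * circleAverage F c r) := by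
  have hpi := Real.pi_pos
  have hcont : Continuous (fun θ : ℝ => F (circleMap c r θ)) := hF.comp (continuous_circleMap c r)
  have h1 : ∀ θ : ℝ, F (c + r * exp (θ * I)) = F (circleMap c r θ) := by
    intro θ
    rfl
  simp only [h1]
  rw [← ofReal_integral_eq_lintegral_ofReal]
  · congr 1
    rw [Real.circleAverage_def, smul_eq_mul, ← mul_assoc, mul_inv_cancel₀ (by positivity), one_mul,
      ← intervalIntegral.integral_of_le (by linarith)]
    have hper : Function.Periodic (fun θ : ℝ => F (circleMap c r θ)) (2 * Real.pi) :=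
      (periodic_circleMap c r).comp F
    have h2 := hper.intervalIntegral_add_eq (-Real.pi) 0
    rw [show -Real.pi + 2 * Real.pi = Real.pi by ring, zero_add] at h2
    exact h2
  · exact (hcont.integrableOn_Icc (a := -Real.pi) (b := Real.pi)).mono_set Ioc_subset_Icc_self
  · exact Eventually.of_forall fun θ => hF0 _

/-- the integral over a disc in terms of circle averages -/
theorem lint_ball {F : ℂ → ℝ} (hF : Continuous F) (hF0 : ∀ z, 0 ≤ F z) (c : ℂ) (R : ℝ) :
    ∫⁻ z in ball c R, ENNReal.ofReal (F z) =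
      ∫⁻ r in Ioo 0 R, ENNReal.ofReal r * ENNReal.ofReal (2 * Real.pi * circleAverage F c r) := by
  have h1 : ∫⁻ z in ball c R, ENNReal.ofReal (F z) =
      ∫⁻ z, (ball (0 : ℂ) R).indicator (fun z => ENNReal.ofReal (F (c + z))) z := by
    rw [← lintegral_indicator measurableSet_ball, ← lintegral_add_left_eq_self _ c]
    apply lintegral_congr
    intro z
    by_cases hz : z ∈ ball (0 : ℂ) R
    · rw [indicator_of_mem hz, indicator_of_mem]
      rw [mem_ball_iff_norm, add_sub_cancel_left]
      exact mem_ball_zero_iff.1 hz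
    · rw [indicator_of_notMem hz, indicator_of_notMem]
      rw [mem_ball_iff_norm, add_sub_cancel_left]
      exact fun h => hz (mem_ball_zero_iff.2 h)
  have hm : Measurable ((ball (0 : ℂ) R).indicator (fun z => ENNReal.ofReal (F (c + z)))) := by
    apply Measurable.indicator _ measurableSet_ball
    exact ENNReal.measurable_ofReal.comp (hF.measurable.comp (measurable_const_add c))
  rw [h1, Pool.Agent.R240.Push.polar _ hm]
  have h2 : Ioo 0 R ⊆ Ioi (0 : ℝ) := fun x hx => hx.1
  rw [← lintegral_indicator measurableSet_Ioo, ← lintegral_indicator measurableSet_Ioi]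
  apply lintegral_congr
  intro r
  by_cases hr0 : 0 < r
  · rw [indicator_of_mem (mem_Ioi.2 hr0)]
    have hn : ∀ θ : ℝ, ‖(r : ℂ) * exp (θ * I)‖ = r := by
      intro θ
      rw [norm_mul, Complex.norm_exp_ofReal_mul_I, mul_one, Complex.norm_real,
        Real.norm_of_nonneg hr0.le]
    by_cases hr : r < R
    · rw [indicator_of_mem (show r ∈ Ioo 0 R from ⟨hr0, hr⟩), ← lint_circle hF hF0]
      congr 1
      apply lintegral_congr
      intro θ
      rw [indicator_of_mem]
      rw [mem_ball_zero_iff, hn]
      exact hr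
    · rw [indicator_of_notMem (fun h => hr h.2)]
      have h3 : ∀ θ : ℝ, (ball (0 : ℂ) R).indicator (fun z => ENNReal.ofReal (F (c + z)))
          ((r : ℂ) * exp (θ * I)) = 0 := by
        intro θ
        rw [indicator_of_notMem]
        rw [mem_ball_zero_iff, hn]
        exact hr
      simp only [h3, lintegral_zero, mul_zero]
  · have h5 : r ∉ Ioi (0 : ℝ) := fun h => hr0 h
    have h6 : r ∉ Ioo (0 : ℝ) R := fun h => hr0 h.1
    rw [indicator_of_notMem h5, indicator_of_notMem h6]

theorem lint_id {R : ℝ} (hR : 0 ≤ R) : ∫⁻ r in Ioo 0 R, ENNReal.ofReal r = ENNReal.ofReal (R ^ 2 / 2) := by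
  rw [← ofReal_integral_eq_lintegral_ofReal]
  · rw [← integral_Ioc_eq_integral_Ioo, ← intervalIntegral.integral_of_le hR, integral_id]
    congr 1
    ring
  · exact (continuous_id.integrableOn_Icc (a := 0) (b := R)).mono_set Ioo_subset_Icc_self
  · filter_upwards [ae_restrict_mem measurableSet_Ioo] with r hr
    exact hr.1.le

/-- **Area means.** -/
theorem area {F : ℂ → ℝ} (hF : Continuous F) (hF0 : ∀ z, 0 ≤ F z) {p y : ℂ} {T L V : ℝ}
    (hT : 0 < T) (hV : 0 ≤ V) (hpy : ‖p - y‖ ≤ T) (hL : ∀ r, 0 < r → L ≤ circleAverage F p r)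
    (hU : ∀ r, 0 < r → r < 2 * T → circleAverage F y r ≤ V) : L ≤ 4 * V := by
  have hpi := Real.pi_pos
  have h1 : ENNReal.ofReal (T ^ 2 / 2) * ENNReal.ofReal (2 * Real.pi * L) ≤
      ∫⁻ z in ball p T, ENNReal.ofReal (F z) := by
    rw [lint_ball hF hF0, ← lint_id hT.le, ← lintegral_mul_const _ (by fun_prop)]
    apply setLIntegral_mono' measurableSet_Ioo
    intro r hr
    gcongr
    exact hL r hr.1
  have h2 : ∫⁻ z in ball y (2 * T), ENNReal.ofReal (F z) ≤
      ENNReal.ofReal ((2 * T) ^ 2 / 2) * ENNReal.ofReal (2 * Real.pi * V) := by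
    rw [lint_ball hF hF0, ← lint_id (by positivity : 0 ≤ 2 * T), ← lintegral_mul_const _ (by fun_prop)]
    apply setLIntegral_mono' measurableSet_Ioo
    intro r hr
    gcongr
    exact hU r hr.1 hr.2
  have h3 : ball p T ⊆ ball y (2 * T) := by
    apply ball_subset_ball'
    rw [dist_eq_norm]
    linarith
  have h4 := h1.trans ((lintegral_mono_set h3).trans h2)
  rw [← ENNReal.ofReal_mul (by positivity), ← ENNReal.ofReal_mul (by positivity),
    ENNReal.ofReal_le_ofReal_iff (by positivity)] at h4
  have h5 : Real.pi * T ^ 2 * L ≤ Real.pi * T ^ 2 * (4 * V) := by nlinarith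
  exact le_of_mul_le_mul_left h5 (by positivity)

end Pool.Agent.Run7.h598.HM
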