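import Mathlib

set_option autoImplicit false

/-! # Radial means of inverse square roots -/

namespace Pool.Agent.Run7.h598.HM

open Metric Set Filter Topology MeasureTheory
open Real (posLog)
open scoped ENNReal

theorem posLog_le_sqrt {y : ℝ} (hy : 0 ≤ y) : posLog y ≤ 2 * √y := by
  have h0 := Real.sqrt_nonneg y
  rcases eq_or_lt_of_le hy with h | h
  · rw [← h]
    simp
  · apply max_le (by positivity)
    have h1 : Real.log y = 2 * Real.log (√y) := by
      rw [Real.log_sqrt hy]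
      ring
    rw [h1]
    have h2 := Real.log_le_sub_one_of_pos (Real.sqrt_pos.2 h)
    linarith

/-- the inverse square root of the absolute value, with the value infinity at zero -/
noncomputable def gi (u : ℝ) : ℝ≥0∞ := (ENNReal.ofReal |u|) ^ (-(1 / 2) : ℝ)

theorem gi_meas : Measurable gi := by
  unfold gi
  fun_prop

theorem gi_anti {u v : ℝ} (h : |u| ≤ |v|) : gi v ≤ gi u := by
  unfold gi
  rw [ENNReal.rpow_neg, ENNReal.rpow_neg]
  apply ENNReal.inv_le_inv.2
  exact ENNReal.rpow_le_rpow (ENNReal.ofReal_le_ofReal h) (by norm_num)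

theorem gi_pos {u : ℝ} (h : 0 < u) : gi u = ENNReal.ofReal (u ^ (-(1 / 2) : ℝ)) := by
  unfold gi
  rw [abs_of_pos h, ENNReal.ofReal_rpow_of_pos h]

theorem gi_int {r : ℝ} (hr : 0 < r) : ∫⁻ u in Ioo 0 r, gi u = ENNReal.ofReal (2 * √r) := by
  have h1 : ∫⁻ u in Ioo 0 r, gi u = ∫⁻ u in Ioo 0 r, ENNReal.ofReal (u ^ (-(1 / 2) : ℝ)) := by
    apply setLIntegral_congr_fun measurableSet_Ioo
    intro u hu
    exact gi_pos hu.1
  have hi : IntervalIntegrable (fun x : ℝ => x ^ (-(1 / 2) : ℝ)) volume 0 r :=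
    intervalIntegral.intervalIntegrable_rpow' (by norm_num)
  rw [h1, ← ofReal_integral_eq_lintegral_ofReal]
  · rw [← integral_Ioc_eq_integral_Ioo, ← intervalIntegral.integral_of_le hr.le,
      integral_rpow (Or.inl (by norm_num))]
    congr 1
    rw [Real.zero_rpow (by norm_num), Real.sqrt_eq_rpow, show (-(1 / 2) + 1 : ℝ) = 1 / 2 by norm_num]
    ring
  · rw [intervalIntegrable_iff_integrableOn_Ioo_of_le hr.le] at hi
    exact hi
  · filter_upwards [ae_restrict_mem measurableSet_Ioo] with u hu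
    exact Real.rpow_nonneg hu.1.le _

theorem gi_sym {r : ℝ} (hr : 0 < r) : ∫⁻ u in Ioo (-r) r, gi u ≤ ENNReal.ofReal (4 * √r) := by
  have h0 : Ioo (-r) r ⊆ (Ioo (-r) 0 ∪ {0}) ∪ Ioo 0 r := by
    intro u hu
    rcases lt_trichotomy u 0 with h | h | h
    · exact Or.inl (Or.inl ⟨hu.1, h⟩)
    · exact Or.inl (Or.inr h)
    · exact Or.inr ⟨h, hu.2⟩
  have h2 : ∫⁻ u in Ioo (-r) 0, gi u = ∫⁻ u in Ioo 0 r, gi u := by
    rw [← lintegral_indicator measurableSet_Ioo, ← lintegral_indicator measurableSet_Ioo,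
      ← lintegral_neg_eq_self (μ := (volume : Measure ℝ))]
    apply lintegral_congr
    intro u
    by_cases hu : u ∈ Ioo 0 r
    · rw [indicator_of_mem hu, indicator_of_mem (show -u ∈ Ioo (-r) 0 from ⟨by linarith [hu.2], by linarith [hu.1]⟩)]
      unfold gi
      rw [abs_neg]
    · rw [indicator_of_notMem hu, indicator_of_notMem]
      rintro ⟨h1, h2⟩
      exact hu ⟨by linarith, by linarith⟩
  calc ∫⁻ u in Ioo (-r) r, gi u ≤ ∫⁻ u in (Ioo (-r) 0 ∪ {0}) ∪ Ioo 0 r, gi u := lintegral_mono_set h0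
    _ ≤ (∫⁻ u in Ioo (-r) 0 ∪ {0}, gi u) + ∫⁻ u in Ioo 0 r, gi u := lintegral_union_le _ _ _
    _ ≤ ((∫⁻ u in Ioo (-r) 0, gi u) + ∫⁻ u in {(0 : ℝ)}, gi u) + ∫⁻ u in Ioo 0 r, gi u := by
        gcongr
        exact lintegral_union_le _ _ _
    _ = ENNReal.ofReal (4 * √r) := by
        rw [h2, gi_int hr, Measure.restrict_singleton]
        simp only [Real.volume_singleton, zero_smul, lintegral_zero_measure, add_zero]
        rw [← ENNReal.ofReal_add (by positivity) (by positivity)]
        congr 1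
        ring

/-- **Radial means.** -/
theorem gi_mean {r : ℝ} (hr : 0 < r) (t : ℝ) :
    ∫⁻ s in Ioo 0 r, gi (s - t) ≤ ENNReal.ofReal (5 * √r) := by
  have h1 : ∀ u : ℝ, gi u ≤ (Ioo (-r) r).indicator gi u + gi r := by
    intro u
    by_cases hu : u ∈ Ioo (-r) r
    · rw [indicator_of_mem hu]
      exact le_self_add
    · rw [indicator_of_notMem hu, zero_add]
      apply gi_anti
      rw [abs_of_pos hr]
      by_contra hcon
      push Not at hcon
      exact hu (abs_lt.1 hcon)
  have hm : Measurable ((Ioo (-r) r).indicator gi) := gi_meas.indicator measurableSet_Ioo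
  calc ∫⁻ s in Ioo 0 r, gi (s - t) ≤ ∫⁻ s in Ioo 0 r, ((Ioo (-r) r).indicator gi (s - t) + gi r) :=
        lintegral_mono fun s => h1 _
    _ = (∫⁻ s in Ioo 0 r, (Ioo (-r) r).indicator gi (s - t)) + ∫⁻ s in Ioo 0 r, gi r := by
        rw [lintegral_add_right _ measurable_const]
    _ ≤ (∫⁻ s, (Ioo (-r) r).indicator gi (s - t)) + gi r * ENNReal.ofReal r := by
        apply add_le_add (setLIntegral_le_lintegral _ _)
        rw [setLIntegral_const, Real.volume_Ioo, sub_zero]
    _ = (∫⁻ u in Ioo (-r) r, gi u) + gi r * ENNReal.ofReal r := by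
        rw [lintegral_sub_right_eq_self (fun u => (Ioo (-r) r).indicator gi u) t,
          lintegral_indicator measurableSet_Ioo]
    _ ≤ ENNReal.ofReal (4 * √r) + ENNReal.ofReal (√r) := by
        gcongr
        · exact gi_sym hr
        · rw [gi_pos hr, ← ENNReal.ofReal_mul (Real.rpow_nonneg hr.le _)]
          apply ENNReal.ofReal_le_ofReal
          have h2 : r ^ (-(1 / 2) : ℝ) * r = r ^ (1 / 2 : ℝ) := by
            nth_rewrite 2 [← Real.rpow_one r]
            rw [← Real.rpow_add hr]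
            norm_num
          rw [h2, Real.sqrt_eq_rpow]
    _ = ENNReal.ofReal (5 * √r) := by
        rw [← ENNReal.ofReal_add (by positivity) (by positivity)]
        congr 1
        ring

/-- **Fubini for radial means.** -/
theorem fub_mean {μ : Measure ℝ} [SFinite μ] {t : ℝ → ℝ} (ht : Measurable t) {r κ C : ℝ} (hr : 0 < r)
    (hC : 0 ≤ C) {D : Set ℝ} (h : ∀ s ∈ Ioo 0 r, ENNReal.ofReal κ ≤
      ∫⁻ θ in D, ENNReal.ofReal C * gi (s - t θ) ∂μ) :
    ENNReal.ofReal (κ * r) ≤ ENNReal.ofReal (C * (5 * √r)) * μ D := by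
  have hm : Measurable (Function.uncurry fun (s θ : ℝ) => ENNReal.ofReal C * gi (s - t θ)) := by
    apply Measurable.const_mul
    exact gi_meas.comp (measurable_fst.sub (ht.comp measurable_snd))
  calc ENNReal.ofReal (κ * r) = ∫⁻ _ in Ioo 0 r, ENNReal.ofReal κ := by
        rw [setLIntegral_const, Real.volume_Ioo, sub_zero, ENNReal.ofReal_mul' hr.le]
    _ ≤ ∫⁻ s in Ioo 0 r, ∫⁻ θ in D, ENNReal.ofReal C * gi (s - t θ) ∂μ :=
        setLIntegral_mono' measurableSet_Ioo h
    _ = ∫⁻ θ in D, (∫⁻ s in Ioo 0 r, ENNReal.ofReal C * gi (s - t θ)) ∂μ := by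
        rw [lintegral_lintegral_swap hm.aemeasurable]
    _ ≤ ∫⁻ _ in D, ENNReal.ofReal (C * (5 * √r)) ∂μ := by
        apply lintegral_mono
        intro θ
        have h1 : Measurable fun s : ℝ => gi (s - t θ) := gi_meas.comp (measurable_id.sub_const _)
        simp only
        rw [lintegral_const_mul _ h1, ENNReal.ofReal_mul hC]
        gcongr
        exact gi_mean hr _
    _ = _ := by rw [setLIntegral_const]

end Pool.Agent.Run7.h598.HM
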