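import Pool.Agent.R240.LL4
import Pool.Agent.R240.Mass
import Pool.Agent.Y736.HG7
import Pool.Agent.Run7.h598.HM.Rad
import Pool.Agent.Run7.h598.HM.Rad2
import Pool.Agent.Run7.h598.PP.Mis2

set_option autoImplicit false

/-! # Lower bounds of the harmonic measure of the Multibrot sets -/

namespace Pool.Agent.Run7.h598.HM

open Complex Metric Set Filter Topology MeasureTheory Pool.Agent.H712R2 Pool.Agent.H713R2
open N62a1eb23
open Real (posLog circleAverage)
open Pool.Agent.Y736.HD Pool.Agent.Y736.HG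
open Pool.Agent.R240.LL (avg_aff TT_eq TT_low ZZ mem_ZZ nz law KL KL_pos)

variable {d : ℕ} {ψ β : ℂ → ℂ}

theorem cont_pl (N : ℕ) : Continuous (fun z => posLog ‖P d (N + 1) z‖) := by
  have h := (differentiable_P d (N + 1)).continuous
  fun_prop

/-- the mean of `log⁺ |P|` is at most the potential -/
theorem pot_low' (hd : 2 ≤ d) (hψ : IsExteriorMap (multibrotSet d) ψ) {c₀ : ℂ}
    (hc₀ : c₀ ∈ multibrotSet d) {ρ : ℝ} (hρ : 0 < ρ) (N n : ℕ) :
    circleAverage (fun z => posLog ‖P d (N + 1) z‖) c₀ ρ ≤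
      (d:ℝ) ^ N * TT ψ c₀ ρ n + Real.log 2 - (d:ℝ) ^ N * Real.log (sn n) := by
  obtain ⟨β, hβ⟩ := exists_beta (d := d) hd
  have hd0 : (2:ℝ) ≤ d := by exact_mod_cast hd
  have hD : (0:ℝ) < (d:ℝ) ^ N := by positivity
  have hl2 : 0 < Real.log 2 := Real.log_pos (by norm_num)
  have hs0 := sn_pos n
  have hs1 := sn_lt n
  have hlogs : Real.log (sn n) < 0 := Real.log_neg hs0 hs1
  have hci : CircleIntegrable (fun z => posLog ‖P d (N + 1) z‖) c₀ ρ :=
    (cont_pl N).continuousOn.circleIntegrable hρ.le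
  obtain ⟨h1, h2⟩ := avg_aff hci (1 / (d:ℝ) ^ N)
    (-(Real.log 2 / (d:ℝ) ^ N) + Real.log (sn n))
  have hpl2 : posLog (2:ℝ) = Real.log 2 := Real.posLog_eq_log (by norm_num)
  have h3 := lower_II hβ hc₀ hρ hs0 hs1 h1 (fun z hz => by
    by_cases hzM : z ∈ multibrotSet d
    · rw [avg_mem hβ hzM hs0 hs1]
      have h5 : ‖P d (N + 1) z‖ ≤ 2 := (mem_multibrot_iff hd z).1 hzM (N + 1)
      have h4 : posLog ‖P d (N + 1) z‖ ≤ Real.log 2 := by
        rw [← hpl2]
        exact Real.posLog_le_posLog (norm_nonneg _) h5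
      have h6 : 1 / (d:ℝ) ^ N * posLog ‖P d (N + 1) z‖ ≤ Real.log 2 / (d:ℝ) ^ N := by
        rw [one_div, div_eq_inv_mul]
        gcongr
      linarith
    · have h4 : z ∈ (multibrotSet d)ᶜ := hzM
      rw [← hψ.image] at h4
      obtain ⟨w, hw, rfl⟩ := h4
      have hw' : 1 < ‖w‖ := hw
      have h5 := Pool.Agent.W677.MC.P_le_two hd hψ hw' N
      have e1 := avg_ext hβ hw' hs0 hs1
      rw [← exteriorMap_unique hβ hψ hw] at e1
      rw [e1]
      have h9 : Real.log (sn n * ‖w‖) ≤ posLog (sn n * ‖w‖) := le_max_right _ _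
      rw [Real.log_mul hs0.ne' (by linarith)] at h9
      have hw1 : (1:ℝ) ≤ ‖w‖ ^ (d ^ N) := one_le_pow₀ hw'.le
      have h6 : posLog ‖P d (N + 1) (ψ w)‖ ≤ Real.log 2 + (d:ℝ) ^ N * Real.log ‖w‖ := by
        refine (Real.posLog_le_posLog (norm_nonneg _) h5).trans (le_of_eq ?_)
        rw [Real.posLog_eq_log (by rw [abs_of_nonneg (by positivity)]; linarith),
          Real.log_mul (by norm_num) (by positivity), Real.log_pow]
        push_cast
        rfl
      have h7 : 1 / (d:ℝ) ^ N * posLog ‖P d (N + 1) (ψ w)‖ ≤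
          Real.log 2 / (d:ℝ) ^ N + Real.log ‖w‖ := by
        rw [one_div_mul_eq_div, div_le_iff₀ hD, add_mul, div_mul_cancel₀ _ hD.ne']
        linarith
      linarith)
  rw [h2, ← TT_eq hβ hψ c₀ ρ n] at h3
  have h4 : (d:ℝ) ^ N * (1 / (d:ℝ) ^ N * circleAverage (fun z => posLog ‖P d (N + 1) z‖) c₀ ρ +
      (-(Real.log 2 / (d:ℝ) ^ N) + Real.log (sn n))) =
      circleAverage (fun z => posLog ‖P d (N + 1) z‖) c₀ ρ - Real.log 2 +
        (d:ℝ) ^ N * Real.log (sn n) := by
    field_simp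
    ring
  have h5 := mul_le_mul_of_nonneg_left h3 hD.le
  rw [h4] at h5
  linarith

/-- the submean inequality -/
theorem submean {f : ℂ → ℂ} (hf : Differentiable ℂ f) (p : ℂ) {r : ℝ} (hr : 0 < r) (hp : f p ≠ 0) :
    Real.log ‖f p‖ ≤ circleAverage (fun z => posLog ‖f z‖) p r := by
  have ha : AnalyticOnNhd ℂ f (closedBall p |r|) := fun z _ => hf.analyticAt z
  have h1 := ha.circleAverage_log_norm hr.ne' hp
  have h2 : 0 ≤ ∑ᶠ u, MeromorphicOn.divisor f (closedBall p |r|) u * Real.log (r * ‖p - u‖⁻¹) := by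
    apply finsum_nonneg
    intro u
    by_cases hu : u ∈ closedBall p |r|
    · apply mul_nonneg
      · exact_mod_cast (MeromorphicOn.AnalyticOnNhd.divisor_nonneg ha) u
      · rcases eq_or_ne u p with rfl | hup
        · simp
        · apply Real.log_nonneg
          have h3 : 0 < ‖p - u‖ := norm_pos_iff.2 (sub_ne_zero.2 hup.symm)
          rw [← div_eq_mul_inv, le_div_iff₀ h3, one_mul, norm_sub_rev]
          rw [mem_closedBall, dist_eq_norm, abs_of_pos hr] at hu
          exact hu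
    · have h3 : MeromorphicOn.divisor f (closedBall p |r|) u = 0 :=
        Function.locallyFinsuppWithin.apply_eq_zero_of_notMem _ hu
      rw [h3]
      simp
  have h3 : circleAverage (Real.log ‖f ·‖) p r ≤ circleAverage (fun z => posLog ‖f z‖) p r := by
    apply Real.circleAverage_mono
    · apply MeromorphicOn.circleIntegrable_log_norm
      intro z _
      exact (hf.analyticAt z).meromorphicAt
    · have h := hf.continuous
      have h4 : Continuous (fun z => posLog ‖f z‖) := by fun_prop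
      exact h4.continuousOn.circleIntegrable hr.le
    · intro z _
      exact le_max_right _ _
  linarith

theorem TT_nonneg (c₀ : ℂ) (ρ : ℝ) (n : ℕ) : 0 ≤ TT ψ c₀ ρ n := by
  unfold TT
  exact integral_nonneg fun θ => Real.posLog_nonneg

/-- the potentials at the points of the Multibrot set near a point with a large value -/
theorem TT_big (hd : 2 ≤ d) (hψ : IsExteriorMap (multibrotSet d) ψ) {y p : ℂ}
    (hy : y ∈ multibrotSet d) {T : ℝ} (hT : 0 < T) (hpy : ‖p - y‖ ≤ T) (N n : ℕ)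
    (hp : P d (N + 1) p ≠ 0) : Real.log ‖P d (N + 1) p‖ ≤
      4 * ((d:ℝ) ^ N * TT ψ y (2 * T) n + Real.log 2 - (d:ℝ) ^ N * Real.log (sn n)) := by
  have hd0 : (2:ℝ) ≤ d := by exact_mod_cast hd
  have hl2 : 0 < Real.log 2 := Real.log_pos (by norm_num)
  have hlogs : Real.log (sn n) < 0 := Real.log_neg (sn_pos n) (sn_lt n)
  have hD : (0:ℝ) < (d:ℝ) ^ N := by positivity
  have hT0 := TT_nonneg (ψ := ψ) y (2 * T) n
  apply area (cont_pl N) (fun z => Real.posLog_nonneg) hT _ hpy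
  · intro r hr
    exact submean (differentiable_P d (N + 1)) p hr hp
  · intro r hr hr2
    have h1 := pot_low' hd hψ hy hr N n
    have h2 := TT_low hψ hy hr hr2 n
    have h3 : 0 ≤ Real.log (2 * T / r) * cm.real (DD ψ y r n) := by
      apply mul_nonneg _ measureReal_nonneg
      apply Real.log_nonneg
      rw [le_div_iff₀ hr]
      linarith
    have h4 : (d:ℝ) ^ N * TT ψ y r n ≤ (d:ℝ) ^ N * TT ψ y (2 * T) n := by
      apply mul_le_mul_of_nonneg_left _ hD.le
      linarith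
    linarith
  · have : 0 ≤ (d:ℝ) ^ N * TT ψ y (2 * T) n := by positivity
    nlinarith

/-- the mass of a disc in which the Green function is large, level curves -/
theorem mass_DD (hd : 2 ≤ d) (hψ : IsExteriorMap (multibrotSet d) ψ) {c p : ℂ}
    {r : ℝ} (hr : 0 < r) (hcirc : ∀ s ∈ Ioo 0 r, ∃ y ∈ multibrotSet d, ‖y - c‖ = s)
    (hpc : ‖p - c‖ ≤ r) (N n : ℕ) (hp : P d (N + 1) p ≠ 0) :
    (Real.log ‖P d (N + 1) p‖ / 4 - Real.log 2) / (d:ℝ) ^ N + Real.log (sn n) ≤
      20 * cm.real (DD ψ c (5 * r) n) := by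
  have hd0 : (2:ℝ) ≤ d := by exact_mod_cast hd
  have hD : (0:ℝ) < (d:ℝ) ^ N := by positivity
  obtain ⟨κ, hκ⟩ : ∃ κ : ℝ, κ = (Real.log ‖P d (N + 1) p‖ / 4 - Real.log 2) / (d:ℝ) ^ N +
    Real.log (sn n) := ⟨_, rfl⟩
  rw [← hκ]
  have hsr : 0 < √r := Real.sqrt_pos.2 hr
  obtain ⟨t, ht⟩ : ∃ t : ℝ → ℝ, t = fun θ : ℝ => ‖ψ (((sn n)⁻¹ : ℝ) * exp (θ * I)) - c‖ := ⟨_, rfl⟩
  have htc : Continuous t := by
    rw [ht]
    exact ((Pool.Agent.Y736.HG.cont_pt hψ (sn_pos n) (sn_lt n)).sub continuous_const).norm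
  have hDm := Pool.Agent.Y736.HG.DD_meas hψ c (5 * r) n
  have key : ∀ s ∈ Ioo 0 r, ENNReal.ofReal κ ≤
      ∫⁻ θ in DD ψ c (5 * r) n, ENNReal.ofReal (4 * √r) * gi (s - t θ) ∂cm := by
    intro s hs
    obtain ⟨y, hy, hys⟩ := hcirc s hs
    have hpy : ‖p - y‖ ≤ 2 * r := by
      have h1 : p - y = (p - c) - (y - c) := by ring
      rw [h1]
      have := norm_sub_le (p - c) (y - c)
      linarith [hs.2]
    have h1 := TT_big hd hψ hy (by positivity : 0 < 2 * r) hpy N n hp
    have h2 : κ ≤ TT ψ y (2 * (2 * r)) n := by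
      rw [hκ]
      have h3 : (Real.log ‖P d (N + 1) p‖ / 4 - Real.log 2) / (d:ℝ) ^ N ≤
          TT ψ y (2 * (2 * r)) n - Real.log (sn n) := by
        rw [div_le_iff₀ hD]
        linarith
      linarith
    have hci := integrable_cont (Pool.Agent.Y736.HG.cont_U hψ hy (2 * (2 * r)) (sn_pos n) (sn_lt n))
    refine (ENNReal.ofReal_le_ofReal h2).trans ?_
    unfold TT
    rw [ofReal_integral_eq_lintegral_ofReal hci (Eventually.of_forall fun θ => Real.posLog_nonneg),
      ← lintegral_indicator hDm]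
    apply lintegral_mono
    intro θ
    show ENNReal.ofReal (posLog (2 * (2 * r) / ‖ψ (((sn n)⁻¹ : ℝ) * exp (θ * I)) - y‖)) ≤
      (DD ψ c (5 * r) n).indicator (fun θ => ENNReal.ofReal (4 * √r) * gi (s - t θ)) θ
    obtain ⟨x, hx⟩ : ∃ x, x = ‖ψ (((sn n)⁻¹ : ℝ) * exp (θ * I)) - y‖ := ⟨_, rfl⟩
    have hx0 : 0 < x := by
      rw [hx]
      exact norm_pos_iff.2 (sub_ne_zero.2 (Pool.Agent.Y736.HG.psi_ne hψ hy
        (norm_pt (sn_pos n) (sn_lt n) θ)))
    have htx : |s - t θ| ≤ x := by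
      have h4 := abs_norm_sub_norm_le (y - c) (ψ (((sn n)⁻¹ : ℝ) * exp (θ * I)) - c)
      have h5 : y - c - (ψ (((sn n)⁻¹ : ℝ) * exp (θ * I)) - c) =
          -(ψ (((sn n)⁻¹ : ℝ) * exp (θ * I)) - y) := by ring
      rw [h5, norm_neg, hys, ← hx] at h4
      rw [ht]
      exact h4
    rw [← hx]
    by_cases hθ : θ ∈ DD ψ c (5 * r) n
    · rw [indicator_of_mem hθ]
      have h6 : posLog (2 * (2 * r) / x) ≤ 4 * √r * x ^ (-(1 / 2) : ℝ) := by
        refine (posLog_le_sqrt (by positivity)).trans (le_of_eq ?_)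
        have h7 : 2 * (2 * r) / x = 2 ^ 2 * r * x⁻¹ := by ring
        rw [h7, Real.sqrt_mul (by positivity), Real.sqrt_mul (by positivity),
          Real.sqrt_sq (by norm_num), Real.rpow_neg hx0.le, ← Real.sqrt_eq_rpow, Real.sqrt_inv]
        ring
      calc ENNReal.ofReal (posLog (2 * (2 * r) / x)) ≤
            ENNReal.ofReal (4 * √r * x ^ (-(1 / 2) : ℝ)) := ENNReal.ofReal_le_ofReal h6
        _ = ENNReal.ofReal (4 * √r) * gi x := by
            rw [gi_pos hx0, ENNReal.ofReal_mul (by positivity)]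
        _ ≤ ENNReal.ofReal (4 * √r) * gi (s - t θ) := by
            gcongr
            apply gi_anti
            rwa [abs_of_pos hx0]
    · have h6 : 5 * r ≤ t θ := by
        rw [ht]
        exact not_lt.1 hθ
      have h7 : 2 * (2 * r) ≤ x := by
        have h8 := (abs_le.1 htx).1
        linarith [hs.2]
      have h9 : posLog (2 * (2 * r) / x) = 0 := by
        rw [Real.posLog_eq_zero_iff, abs_of_nonneg (by positivity), div_le_one hx0]
        exact h7
      rw [h9, ENNReal.ofReal_zero]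
      exact zero_le
  have h1 := fub_mean (μ := cm) htc.measurable hr (by positivity : 0 ≤ 4 * √r) key
  have h2 : 4 * √r * (5 * √r) = 20 * r := by
    have := Real.mul_self_sqrt hr.le
    nlinarith
  have h3 : cm (DD ψ c (5 * r) n) = ENNReal.ofReal (cm.real (DD ψ c (5 * r) n)) := by
    rw [ofReal_measureReal]
  rw [h2, h3, ← ENNReal.ofReal_mul (by positivity), ENNReal.ofReal_le_ofReal_iff (by positivity)] at h1
  have h4 : r * κ ≤ r * (20 * cm.real (DD ψ c (5 * r) n)) := by linarith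
  exact le_of_mul_le_mul_left h4 hr

/-- the harmonic measure of a disc in which the Green function is large -/
theorem mass_Ang (hd : 2 ≤ d) (hψ : IsExteriorMap (multibrotSet d) ψ) {c p : ℂ}
    {r : ℝ} (hr : 0 < r) (hcirc : ∀ s ∈ Ioo 0 r, ∃ y ∈ multibrotSet d, ‖y - c‖ = s)
    (hpc : ‖p - c‖ ≤ r) (N : ℕ) (hp : P d (N + 1) p ≠ 0) :
    (Real.log ‖P d (N + 1) p‖ / 4 - Real.log 2) / (d:ℝ) ^ N ≤
      20 * ((volume (Ang ψ c (6 * r))).toReal / (2 * Real.pi)) := by
  apply le_of_forall_pos_le_add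
  intro ε hε
  have h1 := DD_limsup hψ (ae_land hd hψ) c (by linarith : 5 * r < 6 * r) (by positivity : 0 < ε / 40)
  have h2 : Tendsto (fun n => Real.log (sn n)) atTop (𝓝 0) := by
    have h := (Real.continuousAt_log one_ne_zero).tendsto.comp sn_lim
    rwa [Real.log_one] at h
  have h3 := h2.eventually (lt_mem_nhds (by linarith : -(ε / 2) < 0))
  obtain ⟨n, hn1, hn2⟩ := (h1.and h3).exists
  have h4 := mass_DD hd hψ hr hcirc hpc N n hp
  linarith

end Pool.Agent.Run7.h598.HM
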